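import Pool.Agent.U405.RS.F
import Pool.Agent.Results.MP_b58c63_nt.EveryNumberInWindows

/-!
# A prime in `(√N, 4 √N)` and a rough second summand, for all even numbers near values of `f` at thin sets of arguments

Let `f` be a positive multiplicative function of at most polynomial growth which for each `a ≥ 1` is injective at the powers
`p ^ a` of the large primes and at most `M p ^ a` there; for example Euler's function or the sum of the divisors. Let `G` have steps bounded below by a positive constant and growth at most `v^d`, for example `G(v) = α v^d`. Let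
`0 < u < 3 / 8`, `s > max (1 / 2) (4 u - 1 / 2)` and `e = d s + κ`. ALL even `N` with `|N - G (f v)| ≤ f(v)^κ` have at least
`δ 𝔖(N) √N / (log N) ^ 2` primes `p` in `(√N, 4 √N)` such that all prime factors of `N - p` are larger than `N ^ u`, for almost
all `v` (with a saving of any power of the logarithm) in each of these sets:

* the values of any integer polynomial without repeated roots, of degree `< 1 / e`;
* the shifted primes `p + a`, `a` any integer, if `e < 1`;
* the intervals `(x, x + y]`, `x^τ ≤ y ≤ x`, for every `τ > e`, `τ ≤ 1`.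

For `u = 1 / 3` the number `N - p` is a prime or a product of two primes. For instance all even `N` near `φ(p - 1)`, or near
`σ(p + 1)`, for almost all primes `p`, and all even `N` near `σ(v)` for almost all `v` in the intervals of length `x^(0.84)`,
have this property.

Proof. Own tool `Pool.Agent.U405.RS`: let `S` be a set of at least `N^(θ + δ)` integers up to `N` with at most
`B g^ω(k) |S| / k` multiples of `k` for every `k ≤ N^δ`, and let `W` have at most `C X^θ` elements up to `X`. Then `f(m) ∈ W` for at
most `|S| / (log N)^U` of the `m` in `S`. For this write `m = k w` with `k` composed of the primes `≤ z = N^(1 / J)`, `J` a small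
multiple of `log log N`. By Rankin's method with the weights `g^ω(k)` one has `k ≤ N^η` for most `m`; and `w` has at most `J`
prime factors and exponents `≤ J`, so that `w` is determined by `f(w)` up to `(J τ(f(w)) + 1)^J = N^o(1)` possibilities. The three
kinds of sets satisfy the hypothesis: for polynomials because `P` has at most `g` zeros modulo every prime power (lifting of
zeros by the identity `U P + V P' = R`), for shifted primes by the Brun-Titchmarsh inequality (library). The exceptional even
numbers are at most `X^(s + ε)` by the starting theorem `RoughSummandShortPrime` of this problem (in the form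
`EveryNumberInWindows.count`).
-/

set_option autoImplicit false

namespace Pool.Agent.Results.MP_b58c63_nt.SparseArguments

open Finset
open Pool.Agent.N733.TG (Expanding expanding_pow)
open Pool.Agent.U405.RS (PM Sparse sparse_nat examples)
open Pool.Agent.Results.MP_b58c63_nt.EveryNumberInWindows (sing shortCount Exc count)

/-- all even `n ≥ 1` with `|n - G v| ≤ v ^ κ` have at least `δ 𝔖(n) √n / (log n) ^ 2` primes `p` with `√n < p < 4 √n` such that
`n - p ≥ 2` and all prime factors of `n - p` are larger than `n ^ u` -/
def Clear (u δ : ℝ) (G : ℕ → ℝ) (κ : ℝ) (v : ℕ) : Prop :=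
  ∀ n : ℕ, 1 ≤ n → Even n → |(n : ℝ) - G v| ≤ (v : ℝ) ^ κ →
    δ * sing n * (Real.sqrt n / Real.log n ^ 2) ≤ (shortCount u n : ℝ)

/-- **A rough second summand near `G (f v)` for the `v` in thin sets.** Let `0 < u < 3 / 8` and
`s > max (1 / 2) (4 u - 1 / 2)`. There is `δ > 0` such that for every `f` in the class `PM`, every `G` with steps
`≥ const > 0` and growth at most `v^d`, all `κ ≥ 0` and `U` the property `Clear u δ G κ` holds in the sense `Sparse e f`,
`e = d s + κ`: with a saving of `(log x)^U` it holds at `f v` for almost all `v` among the positive values of every integer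
polynomial without repeated roots of degree `< 1 / e`; among the shifted primes `p + a` for every `a`, if `e < 1`; and in all
intervals `(x, x + y]`, `x^τ ≤ y ≤ x`, `e < τ ≤ 1`. Euler's function and the sum of the divisors are in the class, and `α v^d`
with `α > 0`, `d ≥ 1` is an example of `G`. -/
theorem result :
    (∀ u s : ℝ, 0 < u → u < 3 / 8 → max (1 / 2) (4 * u - 1 / 2) < s → ∃ δ : ℝ, 0 < δ ∧
      ∀ f : ℕ → ℕ, PM f → ∀ (G : ℕ → ℝ) (d : ℝ), Expanding G d → ∀ κ : ℝ, 0 ≤ κ → ∀ U : ℕ,
      Sparse (d * s + κ) f (Clear u δ G κ) U) ∧
    (PM Nat.totient ∧ PM (fun m => ∑ d ∈ m.divisors, d) ∧ PM (fun m => m)) ∧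
    ∀ α d : ℝ, 0 < α → 1 ≤ d → Expanding (fun v => α * (v : ℝ) ^ d) d := by
  refine ⟨fun u s hu hu1 hs => ?_, examples, fun α d hα hd => expanding_pow hα hd⟩
  obtain ⟨δ, hδ, hcount⟩ := count u s hu hu1 hs
  refine ⟨δ, hδ, fun f hf G d hG κ hκ U => ?_⟩
  have hs0 : 0 ≤ s := by
    have := le_max_left (1 / 2 : ℝ) (4 * u - 1 / 2)
    linarith
  classical
  apply sparse_nat (fun n => Even n)
    (fun n => δ * sing n * (Real.sqrt n / Real.log n ^ 2) ≤ (shortCount u n : ℝ)) hf hG (s := s) (κ := κ) hs0 hκ
    (fun ε hε => ?_) U
  obtain ⟨K, hK⟩ := hcount ε hε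
  refine ⟨K, fun X hX => le_trans (le_of_eq ?_) (hK X hX)⟩
  rw [← Set.ncard_coe_finset]
  congr 2
  ext t
  simp only [Set.mem_ofPred_eq, coe_filter, mem_Ioc, Exc]
  constructor
  · rintro ⟨a1, a2, a3, a4⟩
    exact ⟨⟨a1, a2⟩, a3, not_le.1 a4⟩
  · rintro ⟨⟨a1, a2⟩, a3, a4⟩
    exact ⟨a1, a2, a3, not_le.2 a4⟩

end Pool.Agent.Results.MP_b58c63_nt.SparseArguments
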