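import Pool.Agent.U405.RS.F
import Pool.Agent.U405.RS.F2
import Pool.Agent.V60.LD.HallCount

/-!
# Hall's conjecture for abscissas near values of `f` at thin sets of arguments

Let `f` be a positive multiplicative function of at most polynomial growth which for each `a ≥ 1` is injective at the powers
`p ^ a` of the large primes and at most `M p ^ a` there; for example Euler's function or the sum of the divisors. Let `α > 0`, `d ≥ 1`, `κ ≥ 0` and `e = 5 d / 6 + κ`. EVERY integral point `(x, y)` of every curve `y ^ 2 = x ^ 3 + D`, `D ≠ 0`,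
with `||x| - α f(v)^d| ≤ f(v)^κ` satisfies `|x| < 32 |D|`, which is much more than Hall's bound `|x| ≤ C |D| ^ (2 + ε)`, for almost
all `v` (with a saving of any power of the logarithm) in each of these sets:

* the values of any integer polynomial without repeated roots, of degree `< 1 / e` (so of degree `1`);
* the shifted primes `p + a`, `a` any integer, if `e < 1`;
* the intervals `(x, x + y]`, `x^τ ≤ y ≤ x`, for every `τ > e`, `τ ≤ 1`.

For instance Hall's conjecture holds for all curves and all points with abscissa `φ(p - 1)`, or `σ(p + 1)`, for almost all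
primes `p`, and with abscissa `σ(v)` for almost all `v` in the intervals of length `x^(0.84)`.

Proof. Own tool `Pool.Agent.U405.RS`: let `S` be a set of at least `N^(θ + δ)` integers up to `N` with at most
`B g^ω(k) |S| / k` multiples of `k` for every `k ≤ N^δ`, and let `W` have at most `C X^θ` elements up to `X`. Then `f(m) ∈ W` for at
most `|S| / (log N)^U` of the `m` in `S`. For this write `m = k w` with `k` composed of the primes `≤ z = N^(1 / J)`, `J` a small
multiple of `log log N`. By Rankin's method with the weights `g^ω(k)` one has `k ≤ N^η` for most `m`; and `w` has at most `J`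
prime factors and exponents `≤ J`, so that `w` is determined by `f(w)` up to `(J τ(f(w)) + 1)^J = N^o(1)` possibilities. The three
kinds of sets satisfy the hypothesis: for polynomials because `P` has at most `g` zeros modulo every prime power (lifting of
zeros by the identity `U P + V P' = R`), for shifted primes by the Brun-Titchmarsh inequality (library). The count
`O (X ^ (5 / 6 + ε))` of the abscissas `|x| ≤ X` with `|x| ≥ 32 |D|` is from the starting library
(`Pool.Agent.V60.LD.HallCount`).
-/

set_option autoImplicit false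

namespace Pool.Agent.Results.MP_9d7cd1_nt.SparseArguments

open Finset
open Pool.Agent.N733.TG (Expanding expanding_pow)
open Pool.Agent.U405.RS (PM Sparse sparse_good sparse_set' examples)

lemma mem_E {d x y : ℤ} (hd : d ≠ 0) (h : y ^ 2 = x ^ 3 + d) (hx : ¬ |x| < 32 * |d|) :
    x.natAbs ∈ Pool.Agent.V60.Hall.E := by
  have hd1 : 1 ≤ |d| := Int.one_le_abs hd
  have hx0 : 0 < x := by
    by_contra hcon
    push Not at hcon
    -- `x ≤ 0`: then `|d| ≥ |x| ^ 3`
    obtain ⟨z, hz⟩ : ∃ z : ℤ, z = -x := ⟨_, rfl⟩
    have hz0 : 0 ≤ z := by omega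
    have e : x = -z := by omega
    have e2 : d = y ^ 2 + z ^ 3 := by
      rw [e] at h
      have : (-z) ^ 3 = -(z ^ 3) := by ring
      rw [this] at h
      linarith
    have h3 : 0 ≤ z ^ 3 := by positivity
    have h4 : z ≤ z ^ 3 := by
      rcases hz0.eq_or_lt with h0 | h0
      · rw [← h0]; norm_num
      · have h1 : 1 ≤ z := h0
        exact le_self_pow₀ h1 (by norm_num)
    have h5 : 0 ≤ y ^ 2 := sq_nonneg y
    have h6 : |d| = d := abs_of_nonneg (by linarith)
    have h7 : |x| = z := by rw [e, abs_neg, abs_of_nonneg hz0]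
    apply hx
    rw [h6, h7]
    linarith
  refine ⟨y.natAbs, ?_, ?_⟩
  · rw [Int.natCast_natAbs, Int.natCast_natAbs, sq_abs, abs_of_pos hx0]
    intro h1
    apply hd
    linarith
  · rw [Int.natCast_natAbs, Int.natCast_natAbs, sq_abs, abs_of_pos hx0]
    have h1 : y ^ 2 - x ^ 3 = d := by linarith
    rw [h1]
    rw [abs_of_pos hx0] at hx
    push Not at hx
    exact hx

/-- every integral point of every curve `y² = x³ + D`, `D ≠ 0`, with `||x| - G v| ≤ v ^ κ` satisfies `|x| < 32 |D|` -/
def Clear (G : ℕ → ℝ) (κ : ℝ) (v : ℕ) : Prop :=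
  ∀ D x y : ℤ, D ≠ 0 → y ^ 2 = x ^ 3 + D → |(|x| : ℝ) - G v| ≤ (v : ℝ) ^ κ → |x| < 32 * |D|

/-- **Hall's conjecture near `G (f v)` for the `v` in thin sets.** Let `f` be in the class `PM`, `G` with steps `≥ const > 0` and
growth at most `v^d`, `κ ≥ 0` and `U` any. The property that EVERY integral point `(x, y)` of every curve `y ^ 2 = x ^ 3 + D`,
`D ≠ 0`, with `||x| - G v| ≤ v^κ` satisfies `|x| < 32 |D|` holds in the sense `Sparse e f`, `e = 5 d / 6 + κ`. (`Sparse e f`: with a saving of `(log x)^U` it holds at `f v` for almost all `v` among the positive values of every integer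
polynomial without repeated roots of degree `< 1 / e`; among the shifted primes `p + a` for every `a`, if `e < 1`; and in all
intervals `(x, x + y]`, `x^τ ≤ y ≤ x`, `e < τ ≤ 1`.) Euler's function and the sum of the divisors are in the class `PM`, and
`α v^d` with `α > 0`, `d ≥ 1` is an example of `G`. -/
theorem result :
    (∀ f : ℕ → ℕ, PM f → ∀ (G : ℕ → ℝ) (d : ℝ), Expanding G d → ∀ κ : ℝ, 0 ≤ κ → ∀ U : ℕ,
      Sparse (5 * d / 6 + κ) f (Clear G κ) U) ∧
    (PM Nat.totient ∧ PM (fun m => ∑ d ∈ m.divisors, d) ∧ PM (fun m => m)) ∧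
    ∀ α d : ℝ, 0 < α → 1 ≤ d → Expanding (fun v => α * (v : ℝ) ^ d) d := by
  refine ⟨fun f hf G d hG κ hκ U => ?_, examples, fun α d hα hd => expanding_pow hα hd⟩
  apply sparse_set' Pool.Agent.V60.Hall.E (fun t : ℕ => (t : ℝ)) hf hG (s := 5 / 6) (κ := κ)
    (by norm_num) hκ (by ring) (fun ε hε => Pool.Agent.V60.Hall.count ε hε)
  intro v hv D x y hD hxy hw
  by_contra hx
  apply hv x.natAbs (mem_E hD hxy hx)
  have e : ((x.natAbs : ℕ) : ℝ) = |(x : ℝ)| := by
    rw [Nat.cast_natAbs]
    push_cast
    rfl
  rw [e]
  exact hw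

end Pool.Agent.Results.MP_9d7cd1_nt.SparseArguments
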